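import Pool.Agent.Helper10.GO.GoalsP

/-!
# Project GO: the chain rule (packet CHN).
-/

set_option autoImplicit false

open MvPolynomial Filter Topology Pool.Agent.Helper10.GO

noncomputable section

namespace Pool.Agent.Helper8.GO

theorem chn1 {R : Type} [CommRing R] {N : ℕ} (f : Fin N → MvPolynomial (Fin N) R)
    (G : MvPolynomial (Fin N) R) (j : Fin N) :
    pderiv j (aeval f G) = ∑ l, aeval f (pderiv l G) * pderiv j (f l) := by
  induction G using MvPolynomial.induction_on with
  | C a =>
    simp [algebraMap_eq]
  | add p q hp hq =>
    simp only [map_add, hp, hq, add_mul, Finset.sum_add_distrib]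
  | mul_X p i hp =>
    rw [map_mul, aeval_X, Derivation.leibniz, hp]
    simp only [Derivation.leibniz, pderiv_X, smul_eq_mul, map_add, map_mul, aeval_X, add_mul,
      Finset.sum_add_distrib]
    congr 1
    · rw [Finset.sum_eq_single i]
      · simp
      · intro b _ hb
        simp [Pi.single_apply, hb.symm]
      · intro h
        exact absurd (Finset.mem_univ i) h
    · rw [Finset.mul_sum]
      refine Finset.sum_congr rfl fun l _ => ?_
      ring

theorem chn2 {R : Type} [CommRing R] {N : ℕ} (f : Fin N → MvPolynomial (Fin N) R)
    (hf : IsUnit (jac f).det) (n : ℕ) : IsUnit (jac (pit f n)).det := by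
  induction n with
  | zero =>
    have h : jac (pit f 0) = 1 := by
      ext i j : 2
      simp only [jac, pit, Matrix.of_apply, pderiv_X, Matrix.one_apply, Pi.single_apply]
    rw [h, Matrix.det_one]
    exact isUnit_one
  | succ n ih =>
    have h : jac (pit f (n + 1)) = ((aeval (pit f n) : MvPolynomial (Fin N) R →ₐ[R] MvPolynomial (Fin N) R) :
        MvPolynomial (Fin N) R →+* MvPolynomial (Fin N) R).mapMatrix (jac f) * jac (pit f n) := by
      ext i j : 2
      simp only [jac, pit, Matrix.mul_apply, Matrix.of_apply, RingHom.mapMatrix_apply, Matrix.map_apply,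
        RingHom.coe_coe]
      rw [chn1 (pit f n) (f i) j]
    rw [h, Matrix.det_mul, ← RingHom.map_det]
    exact (hf.map _).mul ih

theorem chn : S_CHN := by
  intro R _ N f
  refine ⟨fun G j => chn1 f G j, fun hf n => ⟨chn2 f hf n, fun b => ?_⟩, ?_⟩
  · have h : (Matrix.of fun i j => eval b (pderiv j (pit f n i))) =
        (eval b : MvPolynomial (Fin N) R →+* R).mapMatrix (jac (pit f n)) := by
      ext i j : 2
      simp [jac]
    rw [h, ← RingHom.map_det]
    exact (chn2 f hf n).map _
  · intro a ha n m
    induction m with
    | zero =>
      intro i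
      simp [pit]
    | succ m ih =>
      intro i
      rw [← add_assoc, ha (n + m) i]
      have h : a (n + m) = fun i => eval (a n) (pit f m i) := funext ih
      rw [h]
      simp only [pit]
      have h2 : ∀ P : MvPolynomial (Fin N) R,
          eval (fun i => eval (a n) (pit f m i)) P = eval (a n) (aeval (pit f m) P) := by
        intro P
        induction P using MvPolynomial.induction_on with
        | C c => simp [algebraMap_eq]
        | add p q hp hq => simp only [map_add, hp, hq]
        | mul_X p i hp => simp only [map_mul, hp, eval_X, aeval_X]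
      exact h2 (f i)

end Pool.Agent.Helper8.GO
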