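import Pool.Agent.Helper40.GO.DefsD

/-!
# Project GO (MP_6af536_nt), packet JMP: one sequence
-/

set_option autoImplicit false

namespace Pool.Agent.Helper8.GO

open Pool.Agent.Helper40.GO

/-- the statement for the logarithms -/
theorem jmp_log (w : ℕ → ℝ) (k c r₁ r₂ : ℝ) (hc : 0 ≤ c) (hr : r₁ ≤ r₂)
    (hs : 0 ≤ r₁ ∨ r₂ ≤ 0) (hk : ∀ j, k ≤ w j)
    (H : ∀ j, r₁ + w j ≤ w (j + 1) → c + k ≤ w (j + 1) → r₂ + w (j + 1) ≤ w (j + 2))
    (J : ℕ) (hJ : r₁ * J + c < w J - w 0) (J' : ℕ) (hJJ : J ≤ J') :
    r₂ * ((J' : ℝ) - J) - c ≤ w J' - w J := by
  rcases hs with hs | hs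
  · -- a good step
    obtain ⟨j, hj, h1, h2⟩ : ∃ j < J, r₁ + w j ≤ w (j + 1) ∧ c + k ≤ w (j + 1) := by
      by_contra hcon
      push Not at hcon
      have key : ∀ j ≤ J, w j ≤ w 0 + c + r₁ * j := by
        have key' : ∀ j ≤ J, w j ≤ max (w 0) (c + k) + r₁ * j := by
          intro j
          induction j with
          | zero =>
            intro _
            simp
          | succ j ih =>
            intro hj
            have h3 := ih (by omega)
            push_cast
            by_cases h4 : r₁ + w j ≤ w (j + 1)
            · have h5 := hcon j (by omega) h4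
              have h6 := le_max_right (w 0) (c + k)
              have h7 : 0 ≤ r₁ * (j + 1) := by positivity
              linarith
            · push Not at h4
              linarith
        intro j hj
        have h3 := key' j hj
        have h4 : max (w 0) (c + k) ≤ w 0 + c := max_le (by linarith) (by linarith [hk 0])
        linarith
      have := key J le_rfl
      linarith
    have hr2 : 0 ≤ r₂ := hs.trans hr
    have key : ∀ i, c + k ≤ w (j + 1 + i) ∧ r₂ + w (j + 1 + i) ≤ w (j + 1 + i + 1) := by
      intro i
      induction i with
      | zero => exact ⟨h2, H j h1 h2⟩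
      | succ i ih =>
        obtain ⟨i1, i2⟩ := ih
        have i3 : c + k ≤ w (j + 1 + i + 1) := by linarith
        exact ⟨i3, H (j + 1 + i) (by linarith) i3⟩
    have key2 : ∀ d : ℕ, r₂ * d ≤ w (J + d) - w J := by
      intro d
      induction d with
      | zero => simp
      | succ d ih =>
        have e : j + 1 + (J + d - (j + 1)) = J + d := by omega
        have h3 := (key (J + d - (j + 1))).2
        rw [e] at h3
        push_cast
        have e2 : J + (d + 1) = J + d + 1 := by omega
        rw [e2]
        linarith
    have h3 := key2 (J' - J)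
    have e : J + (J' - J) = J' := by omega
    rw [e, Nat.cast_sub hJJ] at h3
    linarith
  · obtain ⟨j, hj, h1⟩ : ∃ j < J, r₁ + w j ≤ w (j + 1) := by
      by_contra hcon
      push Not at hcon
      have key : ∀ j ≤ J, w j ≤ w 0 + r₁ * j := by
        intro j
        induction j with
        | zero => intro _; simp
        | succ j ih =>
          intro hj
          have h3 := ih (by omega)
          have h4 := hcon j (by omega)
          push_cast
          linarith
      have := key J le_rfl
      linarith
    have key : ∀ i, c + k ≤ w (j + 1 + i) → r₂ + w (j + 1 + i) ≤ w (j + 1 + i + 1) := by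
      intro i
      induction i with
      | zero => exact fun h2 => H j h1 h2
      | succ i ih =>
        intro h2
        have h2' : c + k ≤ w (j + 1 + i + 1) := h2
        refine H (j + 1 + i) ?_ h2'
        by_cases h3 : c + k ≤ w (j + 1 + i)
        · linarith [ih h3]
        · push Not at h3
          linarith
    have key2 : ∀ d : ℕ, r₂ * d ≤ w (J + d) - w J ∨ w J + r₂ * d ≤ c + k := by
      intro d
      induction d with
      | zero => left; simp
      | succ d ih =>
        have e : j + 1 + (J + d - (j + 1)) = J + d := by omega
        have h3 := key (J + d - (j + 1))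
        rw [e] at h3
        push_cast
        have e2 : J + (d + 1) = J + d + 1 := by omega
        rw [e2]
        rcases ih with ih | ih
        · by_cases h4 : c + k ≤ w (J + d)
          · left
            linarith [h3 h4]
          · right
            push Not at h4
            linarith
        · right
          linarith
    have h3 := key2 (J' - J)
    have e : J + (J' - J) = J' := by omega
    rw [e, Nat.cast_sub hJJ] at h3
    rcases h3 with h3 | h3
    · linarith
    · linarith [hk J']

theorem jmp : S_JMP := by
  intro W κ C ρ₁ ρ₂ n₀ m hκ hC hρ hs hW H n hn J hJ J' hJJ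
  have hpos : ∀ x, 0 < W x := fun x => hκ.trans_le (hW x)
  have hC0 : 0 < C := one_pos.trans_le hC
  refine jmp_log (fun j => Real.log (W (n + j * m))) (Real.log κ) (Real.log C) ρ₁ ρ₂
    (Real.log_nonneg hC) hρ hs (fun j => Real.log_le_log hκ (hW _)) ?_ J ?_ J' hJJ
  · intro j h1 h2
    have e1 : n + (j + 1) * m = n + j * m + m := by ring
    have e2 : n + (j + 2) * m = n + j * m + 2 * m := by ring
    simp only [e1] at h1 h2
    simp only [e1, e2]
    have h3 : Real.exp ρ₁ * W (n + j * m) ≤ W (n + j * m + m) := by
      rw [← Real.log_le_log_iff (mul_pos (Real.exp_pos _) (hpos _)) (hpos _),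
        Real.log_mul (Real.exp_pos _).ne' (hpos _).ne', Real.log_exp]
      exact h1
    have h4 : C * κ ≤ W (n + j * m + m) := by
      rw [← Real.log_le_log_iff (mul_pos hC0 hκ) (hpos _), Real.log_mul hC0.ne' hκ.ne']
      exact h2
    have h5 := H (n + j * m) (by omega) h3 h4
    rw [← Real.log_le_log_iff (mul_pos (Real.exp_pos _) (hpos _)) (hpos _),
      Real.log_mul (Real.exp_pos _).ne' (hpos _).ne', Real.log_exp] at h5
    exact h5
  · have e0 : n + 0 * m = n := by ring
    simp only [e0]
    exact hJ

end Pool.Agent.Helper8.GO
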